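import Pool.Agent.helper11.RPQ.SpecG

set_option autoImplicit false

open scoped MatrixGroups ContDiff Topology UpperHalfPlane ComplexConjugate
open UpperHalfPlane MeasureTheory Filter Set

namespace Pool.Agent.RPQ

open Pool.Agent.RS
open Pool.Agent.MS (BA BB st pf gk Dk amk)

/-! ### counting chains -/

open scoped Classical in
theorem CNT_chain {α β : Type} (q n S : ℕ) (hS : 1 ≤ S) (F0 : Finset α) (F : α → Finset α) (G : α → Finset β)
    (h0 : F0.card ≤ q) (h1 : ∀ a, (F a).card ≤ q) (h2 : ∀ a, (G a).card ≤ n) (B : Set β)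
    (hB : ∀ c ∈ B, ∃ P : ℕ → α → Prop, (∀ a, P 0 a → a ∈ F0) ∧ (∀ (i : ℕ) (a a' : α), i + 1 < S → P i a → P (i + 1) a' → a' ∈ F a) ∧
      (∀ i < S, ∃ a, P i a) ∧ ∀ a, P (S - 1) a → c ∈ G a) :
    B.Finite ∧ B.ncard ≤ q ^ S * n := by
  obtain ⟨A, hA0, hA1⟩ : ∃ A : ℕ → Finset α, A 0 = F0 ∧ ∀ i, A (i + 1) = (A i).biUnion F :=
    ⟨fun i => Nat.rec F0 (fun _ X => X.biUnion F) i, rfl, fun _ => rfl⟩
  have hcard : ∀ i, (A i).card ≤ q ^ (i + 1) := by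
    intro i
    induction i with
    | zero => rw [hA0, zero_add, pow_one]; exact h0
    | succ i ih =>
      rw [hA1]
      calc ((A i).biUnion F).card ≤ (A i).card * q := Finset.card_biUnion_le_card_mul _ _ _ fun a _ => h1 a
        _ ≤ q ^ (i + 1) * q := Nat.mul_le_mul_right _ ih
        _ = q ^ (i + 1 + 1) := (pow_succ _ _).symm
  have hsub : B ⊆ (((A (S - 1)).biUnion G : Finset β) : Set β) := by
    intro c hc
    obtain ⟨P, p0, p1, p2, p3⟩ := hB c hc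
    have hin : ∀ i, i < S → ∀ a, P i a → a ∈ A i := by
      intro i
      induction i with
      | zero => intro _ a ha; rw [hA0]; exact p0 a ha
      | succ i ih =>
        intro hi a' ha'
        obtain ⟨a, ha⟩ := p2 i (by omega)
        rw [hA1, Finset.mem_biUnion]
        exact ⟨a, ih (by omega) a ha, p1 i a a' hi ha ha'⟩
    obtain ⟨a, ha⟩ := p2 (S - 1) (by omega)
    rw [Finset.mem_coe, Finset.mem_biUnion]
    exact ⟨a, hin (S - 1) (by omega) a ha, p3 a ha⟩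
  refine ⟨Set.Finite.subset (Finset.finite_toSet _) hsub, ?_⟩
  calc B.ncard ≤ (((A (S - 1)).biUnion G : Finset β) : Set β).ncard := Set.ncard_le_ncard hsub (Finset.finite_toSet _)
    _ = ((A (S - 1)).biUnion G).card := Set.ncard_coe_finset _
    _ ≤ (A (S - 1)).card * n := Finset.card_biUnion_le_card_mul _ _ _ fun a _ => h2 a
    _ ≤ q ^ (S - 1 + 1) * n := Nat.mul_le_mul_right _ (hcard _)
    _ = q ^ S * n := by rw [Nat.sub_add_cancel hS]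

open scoped Classical in
/-- the finite set of the next states -/
theorem CNT_next {Γ : Subgroup SL(2, ℝ)} (n : ℕ) (hn : ∀ z w : ℍ, {γ : Γ | dist z ((γ : SL(2, ℝ)) • w) ≤ 10}.Finite ∧ {γ : Γ | dist z ((γ : SL(2, ℝ)) • w) ≤ 10}.ncard ≤ n)
    (L : ℕ) (z : ℍ) (w : ℕ → ℍ) : ∃ X : Finset (Γ × ℕ × ℕ), X.card ≤ (L + 1) * (4 * n) ∧
      ∀ (γ : Γ) (k m : ℕ), k ≤ L → m < 4 → dist z ((γ : SL(2, ℝ)) • w k) ≤ 10 → (γ, k, m) ∈ X := by
  refine ⟨(Finset.range (L + 1)).biUnion fun k => (Finset.range 4).biUnion fun m => (hn z (w k)).1.toFinset.image fun γ => (γ, k, m), ?_, ?_⟩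
  · have h1 : ∀ k : ℕ, ((Finset.range 4).biUnion fun m => (hn z (w k)).1.toFinset.image fun γ : Γ => (γ, k, m)).card ≤ 4 * n := by
      intro k
      refine (Finset.card_biUnion_le_card_mul _ _ n fun m _ => ?_).trans (by rw [Finset.card_range])
      refine Finset.card_image_le.trans ?_
      rw [← Set.ncard_eq_toFinset_card _ (hn z (w k)).1]
      exact (hn z (w k)).2
    refine (Finset.card_biUnion_le_card_mul _ _ (4 * n) fun k _ => h1 k).trans (by rw [Finset.card_range])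
  · intro γ k m hk hm hd
    rw [Finset.mem_biUnion]
    refine ⟨k, Finset.mem_range.2 (by omega), ?_⟩
    rw [Finset.mem_biUnion]
    refine ⟨m, Finset.mem_range.2 hm, ?_⟩
    rw [Finset.mem_image]
    exact ⟨γ, (Set.Finite.mem_toFinset _).2 hd, rfl⟩

/-! ### geometry -/

theorem CNT_dist (hGLC : GLC_stmt) (a b : ℝ) : dist (aM a • I : ℍ) (aM b • I) = |a - b| := by
  obtain ⟨_, _, _, _, _, _, _, haM, _⟩ := hGLC
  have hre : ∀ t, (aM t • I : ℍ).re = 0 := by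
    intro t
    have h := congrArg Complex.re (haM t I)
    rw [← UpperHalfPlane.coe_re, h]
    simp
  have him : ∀ t, (aM t • I : ℍ).im = Real.exp t := by
    intro t
    have h := congrArg Complex.im (haM t I)
    rw [← UpperHalfPlane.coe_im, h, ← Complex.exp_ofReal_re t]
    simp
  rw [UpperHalfPlane.dist_of_re_eq (by rw [hre, hre]), him, him, Real.log_exp, Real.log_exp, Real.dist_eq]

theorem CNT_comm (hGLC : GLC_stmt) (v : ℝ) (m : ℕ) : ∃ u : ℝ, |u| = |v| ∧ aM v * kM (m * (Real.pi / 2)) = kM (m * (Real.pi / 2)) * aM u := by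
  obtain ⟨_, _, _, _, _, _, _, _, _, _, haa, _, _, hkk, _, _, _, _, _, hka⟩ := hGLC
  have hk0 : kM 0 = 1 := by
    have h := hkk 0 0
    rw [add_zero] at h
    exact (mul_eq_left.1 h.symm)
  induction m with
  | zero => exact ⟨v, rfl, by rw [Nat.cast_zero, zero_mul, hk0, one_mul, mul_one]⟩
  | succ m ih =>
    obtain ⟨u, hu, h⟩ := ih
    refine ⟨-u, by rw [abs_neg, hu], ?_⟩
    have e : ((m + 1 : ℕ) : ℝ) * (Real.pi / 2) = m * (Real.pi / 2) + Real.pi / 2 := by push_cast; ring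
    have h2 : aM u * kM (Real.pi / 2) = kM (Real.pi / 2) * aM (-u) := by
      have := hka (-u)
      rw [neg_neg] at this
      exact this.symm
    rw [e, hkk, ← mul_assoc, h, mul_assoc, h2, ← mul_assoc]

theorem CNT_a0 (hGLC : GLC_stmt) : aM 0 = 1 := by
  obtain ⟨_, _, _, _, _, _, _, _, _, _, haa, _⟩ := hGLC
  have h := haa 0 0
  rw [add_zero] at h
  exact (mul_eq_left.1 h.symm)

theorem CNT_kI (hGLC : GLC_stmt) (g : SL(2, ℝ)) (θ : ℝ) : ((g * kM θ * aM 0) • I : ℍ) = g • I := by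
  rw [CNT_a0 hGLC, mul_one, mul_smul]
  obtain ⟨_, _, _, _, _, _, _, _, _, _, _, _, _, _, _, hkI, _⟩ := hGLC
  rw [hkI]

/-- moving the base point along the geodesic by at most one -/
theorem CNT_move (hGLC : GLC_stmt) (g : SL(2, ℝ)) (v x : ℝ) (m : ℕ) (hv0 : 0 ≤ v) (hv1 : v ≤ 1) :
    dist ((g * aM v * kM (m * (Real.pi / 2)) * aM x) • I : ℍ) ((g * kM (m * (Real.pi / 2)) * aM x) • I) ≤ 1 := by
  obtain ⟨u, hu, h⟩ := CNT_comm hGLC v m
  have haa : ∀ s t, aM (s + t) = aM s * aM t := by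
    obtain ⟨_, _, _, _, _, _, _, _, _, _, haa, _⟩ := hGLC
    exact haa
  have e1 : g * aM v * kM (m * (Real.pi / 2)) * aM x = g * kM (m * (Real.pi / 2)) * aM (u + x) := by
    rw [haa, mul_assoc g, h]
    simp only [mul_assoc]
  rw [e1, mul_smul (g * kM (m * (Real.pi / 2))), mul_smul (g * kM (m * (Real.pi / 2))), dist_smul, CNT_dist hGLC]
  have : u + x - x = u := by ring
  rw [this, hu, abs_of_nonneg hv0]
  exact hv1

/-- one transition -/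
theorem CNT_B (hGLC : GLC_stmt) (C η ε CP ρ1 R : ℝ) (N : ℕ)
    (hA1 : ∀ (s : ℝ) (h : SL(2, ℝ)), 0 ≤ s → Real.exp s ≤ ρ1 ^ (-(1 / 2) : ℝ) → EN.nr (CP * ρ1) h → dist ((h * aM s) • I : ℍ) (aM s • I) ≤ 1)
    (hA2 : ∀ (g : SL(2, ℝ)) (b : ℕ → SL(2, ℝ)), (∀ j < N, b j ∈ Bx C η ε R) → ∀ (s v x : ℝ) (i : ℕ), 0 ≤ s → 0 ≤ v → s + v ≤ N * tau R →
      Real.exp v ≤ R ^ (η / 4) → 0 ≤ x → Real.exp x ≤ R ^ (η / 4) →
      dist ((fr (tau R) g b (s + v) * kM (i * (Real.pi / 2)) * aM x) • I : ℍ) ((fr (tau R) g b s * aM v * kM (i * (Real.pi / 2)) * aM x) • I) ≤ 1)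
    (hR : Real.exp 1 ≤ R ^ (η / 4)) (g g' : SL(2, ℝ)) (b b' : ℕ → SL(2, ℝ)) (hb : ∀ j < N, b j ∈ Bx C η ε R) (hb' : ∀ j < N, b' j ∈ Bx C η ε R)
    (s' v s : ℝ) (γ : SL(2, ℝ)) (m : ℕ) (hs' : 0 ≤ s') (hv : 0 ≤ v) (hsv : s' + v ≤ N * tau R) (hv1 : Real.exp v ≤ ρ1 ^ (-(1 / 2) : ℝ))
    (hv2 : Real.exp v ≤ R ^ (η / 4)) (hs : 0 ≤ s) (hsN : s ≤ N * tau R)
    (hnr : EN.nr (CP * ρ1) ((fr (tau R) g' b' s')⁻¹ * (γ * fr (tau R) g b s) * kM (m * (Real.pi / 2)))) :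
    dist (fr (tau R) g' b' (s' + v) • I : ℍ) ((γ * fr (tau R) g b (⌊s⌋₊ : ℝ) * kM (m * (Real.pi / 2)) * aM v) • I) ≤ 4 := by
  have hf0 : (0 : ℝ) ≤ (⌊s⌋₊ : ℝ) := Nat.cast_nonneg _
  have hf1 : (⌊s⌋₊ : ℝ) ≤ s := Nat.floor_le hs
  have hf2 : s < (⌊s⌋₊ : ℝ) + 1 := Nat.lt_floor_add_one s
  have hexp0 : Real.exp 0 ≤ R ^ (η / 4) := (Real.exp_le_exp.2 zero_le_one).trans hR
  have d1 := hA2 g' b' hb' s' v 0 0 hs' hv hsv hv2 le_rfl hexp0
  rw [CNT_kI hGLC, CNT_kI hGLC] at d1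
  have d2 := hA1 v _ hv hv1 hnr
  have d2' : dist ((γ * fr (tau R) g b s * kM (m * (Real.pi / 2)) * aM v) • I : ℍ) ((fr (tau R) g' b' s' * aM v) • I) ≤ 1 := by
    have e : γ * fr (tau R) g b s * kM (m * (Real.pi / 2)) * aM v =
        fr (tau R) g' b' s' * ((fr (tau R) g' b' s')⁻¹ * (γ * fr (tau R) g b s) * kM (m * (Real.pi / 2)) * aM v) := by
      simp only [mul_assoc, mul_inv_cancel_left]
    rw [e, mul_smul (fr (tau R) g' b' s'), mul_smul (fr (tau R) g' b' s'), dist_smul]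
    exact d2
  have hv3 : Real.exp (s - (⌊s⌋₊ : ℝ)) ≤ R ^ (η / 4) := (Real.exp_le_exp.2 (by linarith)).trans hR
  have d3 := hA2 g b hb (⌊s⌋₊ : ℝ) (s - (⌊s⌋₊ : ℝ)) v m hf0 (by linarith) (by linarith) hv3 hv hv2
  rw [add_sub_cancel] at d3
  have d4 := CNT_move hGLC (fr (tau R) g b (⌊s⌋₊ : ℝ)) (s - (⌊s⌋₊ : ℝ)) v m (by linarith) (by linarith)
  have d34 : dist ((γ * fr (tau R) g b s * kM (m * (Real.pi / 2)) * aM v) • I : ℍ) ((γ * fr (tau R) g b (⌊s⌋₊ : ℝ) * kM (m * (Real.pi / 2)) * aM v) • I) ≤ 2 := by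
    have e1 : γ * fr (tau R) g b s * kM (m * (Real.pi / 2)) * aM v = γ * (fr (tau R) g b s * kM (m * (Real.pi / 2)) * aM v) := by
      simp only [mul_assoc]
    have e2 : γ * fr (tau R) g b (⌊s⌋₊ : ℝ) * kM (m * (Real.pi / 2)) * aM v = γ * (fr (tau R) g b (⌊s⌋₊ : ℝ) * kM (m * (Real.pi / 2)) * aM v) := by
      simp only [mul_assoc]
    rw [e1, e2, mul_smul γ, mul_smul γ, dist_smul]
    exact (dist_triangle _ _ _).trans (by linarith)
  calc dist (fr (tau R) g' b' (s' + v) • I : ℍ) ((γ * fr (tau R) g b (⌊s⌋₊ : ℝ) * kM (m * (Real.pi / 2)) * aM v) • I)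
      ≤ dist (fr (tau R) g' b' (s' + v) • I : ℍ) ((fr (tau R) g' b' s' * aM v) • I) +
        dist ((fr (tau R) g' b' s' * aM v) • I : ℍ) ((γ * fr (tau R) g b s * kM (m * (Real.pi / 2)) * aM v) • I) +
        dist ((γ * fr (tau R) g b s * kM (m * (Real.pi / 2)) * aM v) • I : ℍ) ((γ * fr (tau R) g b (⌊s⌋₊ : ℝ) * kM (m * (Real.pi / 2)) * aM v) • I) :=
        dist_triangle4 _ _ _ _
    _ ≤ 4 := by
        rw [dist_comm] at d2'
        linarith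

theorem CNT_fr0 (t : ℝ) (g : SL(2, ℝ)) (b : ℕ → SL(2, ℝ)) (hGLC : GLC_stmt) : fr t g b 0 = g := by
  unfold fr
  rw [zero_div, Nat.floor_zero, Nat.cast_zero, zero_mul, sub_zero, CNT_a0 hGLC, mul_one]
  rfl

theorem CNT_frN (t : ℝ) (g : SL(2, ℝ)) (b : ℕ → SL(2, ℝ)) (N : ℕ) (ht : t ≠ 0) (hGLC : GLC_stmt) : fr t g b (N * t) = pth t g b N := by
  unfold fr
  rw [mul_div_cancel_right₀ _ ht, Nat.floor_natCast, sub_self, CNT_a0 hGLC, mul_one]

theorem CNT_proof (hPIG : PIG_stmt) (hCNA : CNA_stmt) (hINJ : INJ_stmt) (hGLC : GLC_stmt) : CNT_stmt := by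
  intro Γ κ C η ε N hΓ hC hη hη2 hε hε2 hN
  obtain ⟨CP, ρP, hCP, hρP0, hρP1, hPIG⟩ := hPIG Γ κ hΓ
  obtain ⟨ρA, _, hρA0, hρA1, _, hA1, _⟩ := hCNA CP η ε hCP hη hη2 hε hε2
  obtain ⟨_, RA, _, _, hRA, _, hA2⟩ := hCNA C η ε hC hη hη2 hε hε2
  obtain ⟨_, hcount⟩ := hINJ Γ hΓ
  obtain ⟨n, hn⟩ := hcount 10
  have hn0 : (0 : ℝ) ≤ n := Nat.cast_nonneg n
  refine ⟨CP + 4 * n, min ρP (min ρA (1 / 8)), max RA (max (Real.exp 8) (Real.exp (4 / η))), by linarith,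
    lt_min hρP0 (lt_min hρA0 (by norm_num)), (min_le_right _ _).trans (min_le_right _ _), hRA.trans (le_max_left _ _), ?_⟩
  intro C0 ρ ρ1 K R J p χ nc g h b hR hρ hρ1 hρ1' hK hnc hNet hb
  have hRA' : RA ≤ R := (le_max_left _ _).trans hR
  have hR8 : Real.exp 8 ≤ R := ((le_max_left _ _).trans (le_max_right _ _)).trans hR
  have hR4 : Real.exp (4 / η) ≤ R := ((le_max_right _ _).trans (le_max_right _ _)).trans hR
  have hR0 : 0 < R := (Real.exp_pos _).trans_le hR8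
  have hlogR : 8 ≤ Real.log R := (Real.le_log_iff_exp_le hR0).2 hR8
  have hlogR4 : 4 / η ≤ Real.log R := (Real.le_log_iff_exp_le hR0).2 hR4
  have hτ : 1 ≤ tau R := by unfold tau; linarith
  have hNr : (1 : ℝ) ≤ N := by exact_mod_cast hN
  have hT : 1 ≤ N * tau R := by nlinarith
  have hρP' : ρ1 ≤ ρP := hρ1'.trans (min_le_left _ _)
  have hρA' : ρ1 ≤ ρA := hρ1'.trans ((min_le_right _ _).trans (min_le_left _ _))
  have hρ8 : ρ1 ≤ 1 / 8 := hρ1'.trans ((min_le_right _ _).trans (min_le_right _ _))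
  have hρ0 : 0 < ρ1 := (Real.rpow_pos_of_pos hR0 _).trans_le hρ1
  have hlρ : Real.log ρ1 < 0 := Real.log_neg hρ0 (by linarith)
  have hlρ2 : -(η / 4) * Real.log R ≤ Real.log ρ1 := by
    rw [← Real.log_rpow hR0]
    exact Real.log_le_log (Real.rpow_pos_of_pos hR0 _) hρ1
  -- the constants
  set Λ : ℝ := Real.log (1 / ρ1) / 2 with hΛ
  have hΛ' : Λ = -Real.log ρ1 / 2 := by rw [hΛ, one_div, Real.log_inv]
  have hΛ0 : 0 < Λ := by rw [hΛ']; linarith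
  have hexpΛ : Real.exp Λ ≤ ρ1 ^ (-(1 / 2) : ℝ) := by
    rw [Real.rpow_def_of_pos hρ0, hΛ']
    exact Real.exp_le_exp.2 (by linarith)
  have hlR0 : 0 ≤ η / 4 * Real.log R := by positivity
  have hexpΛ2 : Real.exp Λ ≤ R ^ (η / 4) := by
    rw [Real.rpow_def_of_pos hR0, hΛ']
    exact Real.exp_le_exp.2 (by linarith)
  have hexp1 : Real.exp 1 ≤ R ^ (η / 4) := by
    rw [Real.rpow_def_of_pos hR0]
    refine Real.exp_le_exp.2 ?_
    calc (1 : ℝ) = 4 / η * (η / 4) := by field_simp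
      _ ≤ Real.log R * (η / 4) := mul_le_mul_of_nonneg_right hlogR4 (by positivity)
  set T : ℝ := N * tau R with hTd
  have hTΛ : 0 < T / Λ := by positivity
  obtain ⟨S, hSd⟩ : ∃ S : ℕ, S = ⌈T / Λ⌉₊ := ⟨_, rfl⟩
  have hS1 : 1 ≤ S := by rw [hSd]; exact Nat.ceil_pos.2 hTΛ
  have hSlt : ∀ i : ℕ, i < S → (i : ℝ) * Λ < T := by
    intro i hi
    rw [hSd, Nat.lt_ceil, lt_div_iff₀ hΛ0] at hi
    exact hi
  have hSle : T ≤ S * Λ := by
    rw [← div_le_iff₀ hΛ0, hSd]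
    exact Nat.le_ceil _
  have hSup : (S : ℝ) < T / Λ + 1 := by
    rw [hSd]; exact Nat.ceil_lt_add_one hTΛ.le
  have hA1' := fun (s : ℝ) (h : SL(2, ℝ)) => hA1 ρ1 s h hρ0 hρA'
  have hA2' := fun (g : SL(2, ℝ)) (b : ℕ → SL(2, ℝ)) => hA2 R N g b hRA'
  -- the sets of states
  set w : ℕ → ℍ := fun k => fr (tau R) g b (k : ℝ) • I with hw
  have hnext := fun z : ℍ => CNT_next (Γ := Γ) n hn ⌊T⌋₊ z w
  choose X hX1 hX2 using hnext
  set zz : ℝ → Γ × ℕ × ℕ → ℍ := fun v a => (((a.1 : SL(2, ℝ)) * fr (tau R) g b (a.2.1 : ℝ) * kM (a.2.2 * (Real.pi / 2)) * aM v) • I : ℍ) with hzz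
  set vE : ℝ := T - ((S - 1 : ℕ) : ℝ) * Λ with hvE
  have hchain := CNT_chain ((⌊T⌋₊ + 1) * (4 * n)) n S hS1 (X (g • I)) (fun a => X (zz Λ a)) (fun a => (hn (zz vE a) (h • I)).1.toFinset)
    (hX1 _) (fun a => hX1 _) (fun a => by
      rw [← Set.ncard_eq_toFinset_card _ (hn (zz vE a) (h • I)).1]
      exact (hn _ _).2)
    {γ' : Γ | ∃ b' : ℕ → SL(2, ℝ), (∀ j < N, b' j ∈ Bx C η ε R) ∧ pth (tau R) g b' N = (γ' : SL(2, ℝ)) * h ∧ Und χ K (tau R) N nc g g b b'} (by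
      rintro c ⟨b', hb', hend, hund⟩
      have hB := fun (s' v s : ℝ) (γ : SL(2, ℝ)) (m : ℕ) => CNT_B hGLC C η ε CP ρ1 R N hA1' hA2' hexp1 g g b b' hb hb' s' v s γ m
      have hexp00 : Real.exp 0 ≤ ρ1 ^ (-(1 / 2) : ℝ) := (Real.exp_le_exp.2 hΛ0.le).trans hexpΛ
      have hexp01 : Real.exp 0 ≤ R ^ (η / 4) := (Real.exp_le_exp.2 hΛ0.le).trans hexpΛ2
      -- the position of the state at its own time
      have hpos : ∀ (s' s : ℝ) (γ : SL(2, ℝ)) (m : ℕ), 0 ≤ s' → s' < T → 0 ≤ s → s < T →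
          EN.nr (CP * ρ1) ((fr (tau R) g b' s')⁻¹ * (γ * fr (tau R) g b s) * kM (m * (Real.pi / 2))) →
          dist (fr (tau R) g b' s' • I : ℍ) (γ • w ⌊s⌋₊) ≤ 4 := by
        intro s' s γ m h1 h2 h3 h4 h5
        have h6 := hB s' 0 s γ m h1 le_rfl (by rw [add_zero]; exact h2.le) hexp00 hexp01 h3 h4.le h5
        rw [add_zero, CNT_kI hGLC, mul_smul] at h6
        exact h6
      refine ⟨fun i a => ∃ s : ℝ, 0 ≤ s ∧ s < T ∧ a.2.1 = ⌊s⌋₊ ∧ a.2.2 < 4 ∧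
        EN.nr (CP * ρ1) ((fr (tau R) g b' (i * Λ))⁻¹ * ((a.1 : SL(2, ℝ)) * fr (tau R) g b s) * kM (a.2.2 * (Real.pi / 2))), ?_, ?_, ?_, ?_⟩
      · rintro ⟨γ, k, m⟩ ⟨s, hs0, hs1, hk, hm, hnr⟩
        simp only at hk hm hnr
        rw [Nat.cast_zero, zero_mul] at hnr
        have h6 := hpos 0 s γ m le_rfl (by linarith) hs0 hs1 hnr
        rw [CNT_fr0 _ _ _ hGLC] at h6
        rw [hk]
        exact hX2 _ γ _ m (Nat.floor_le_floor hs1.le) hm (h6.trans (by norm_num))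
      · rintro i ⟨γ, k, m⟩ ⟨γ₁, k₁, m₁⟩ hi ⟨s, hs0, hs1, hk, hm, hnr⟩ ⟨s₁, hs0₁, hs1₁, hk₁, hm₁, hnr₁⟩
        simp only at hk hm hnr hk₁ hm₁ hnr₁
        have e : ((i + 1 : ℕ) : ℝ) * Λ = i * Λ + Λ := by push_cast; ring
        have hlt := hSlt (i + 1) hi
        have h6 := hB (i * Λ) Λ s γ m (by positivity) hΛ0.le (by rw [← e]; exact hlt.le) hexpΛ hexpΛ2 hs0 hs1.le hnr
        have h7 := hpos (((i + 1 : ℕ) : ℝ) * Λ) s₁ γ₁ m₁ (by positivity) hlt hs0₁ hs1₁ hnr₁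
        rw [← e, ← hk] at h6
        rw [hk₁]
        refine hX2 _ γ₁ _ m₁ (Nat.floor_le_floor hs1₁.le) hm₁ ?_
        rw [dist_comm] at h6
        exact (dist_triangle _ _ _).trans ((add_le_add h6 h7).trans (by norm_num))
      · intro i hi
        have hcond : (nc : ℝ) + CP * (N * tau R + 1) / ρ1 ≤ ρ1 / (8 * ρ) := by
          refine le_trans ?_ hnc
          have : CP * (N * tau R + 1) / ρ1 ≤ (CP + 4 * n) * (N * tau R + 1) / ρ1 := by
            refine div_le_div_of_nonneg_right (mul_le_mul_of_nonneg_right (by linarith) ?_) hρ0.le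
            rw [← hTd]; linarith
          linarith
        obtain ⟨s, γ, hs0, hs1, m, hm, hnr⟩ := hPIG C0 ρ ρ1 K (tau R) J p χ N nc g g b b' hρ hρ0 hρP' hτ hK hcond hNet hund (i * Λ) (by positivity) (hSlt i hi)
        exact ⟨(γ, ⌊s⌋₊, m), s, hs0, hs1, rfl, hm, hnr⟩
      · rintro ⟨γ, k, m⟩ ⟨s, hs0, hs1, hk, hm, hnr⟩
        simp only at hk hm hnr
        have hlt := hSlt (S - 1) (by omega)
        have hvE0 : 0 ≤ vE := by rw [hvE]; linarith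
        have hvE1 : vE ≤ Λ := by
          have e : ((S - 1 : ℕ) : ℝ) = S - 1 := by
            rw [Nat.cast_sub hS1, Nat.cast_one]
          rw [hvE, e]
          linarith
        have h6 := hB (((S - 1 : ℕ) : ℝ) * Λ) vE s γ m (by positivity) hvE0 (by rw [hvE]; linarith) ((Real.exp_le_exp.2 hvE1).trans hexpΛ)
          ((Real.exp_le_exp.2 hvE1).trans hexpΛ2) hs0 hs1.le hnr
        have e2 : ((S - 1 : ℕ) : ℝ) * Λ + vE = N * tau R := by rw [hvE]; ring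
        rw [e2, CNT_frN _ _ _ _ (by linarith) hGLC, hend, ← hk, mul_smul (c : SL(2, ℝ)) h] at h6
        rw [Set.Finite.mem_toFinset, Set.mem_ofPred_eq, dist_comm]
        exact h6.trans (by norm_num))
  refine ⟨hchain.1, ?_⟩
  have hQ1 : 1 ≤ (CP + 4 * n) * (T + 1) := by nlinarith
  have hq : (((⌊T⌋₊ + 1) * (4 * n) : ℕ) : ℝ) ≤ (CP + 4 * n) * (T + 1) := by
    push_cast
    have h1 : (⌊T⌋₊ : ℝ) ≤ T := Nat.floor_le (by linarith)
    have h2 : (0 : ℝ) ≤ (⌊T⌋₊ : ℝ) := Nat.cast_nonneg _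
    nlinarith
  have hnQ : (n : ℝ) ≤ (CP + 4 * n) * (T + 1) := by nlinarith
  calc _ ≤ ((((⌊T⌋₊ + 1) * (4 * n)) ^ S * n : ℕ) : ℝ) := Nat.cast_le.2 hchain.2
    _ = (((⌊T⌋₊ + 1) * (4 * n) : ℕ) : ℝ) ^ S * n := by push_cast; ring
    _ ≤ ((CP + 4 * n) * (T + 1)) ^ S * ((CP + 4 * n) * (T + 1)) :=
        mul_le_mul (pow_le_pow_left₀ (Nat.cast_nonneg _) hq S) hnQ hn0 (by positivity)
    _ = ((CP + 4 * n) * (T + 1)) ^ (((S + 1 : ℕ) : ℝ)) := by rw [Real.rpow_natCast, pow_succ]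
    _ ≤ ((CP + 4 * n) * (T + 1)) ^ (T / Λ + 3) := by
        refine Real.rpow_le_rpow_of_exponent_le hQ1 ?_
        push_cast
        linarith

end Pool.Agent.RPQ
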