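import Pool.Agent.helper11.RPQ.SpecI
import Pool.Agent.helper98.RPQ.PRB

set_option autoImplicit false

open scoped MatrixGroups ContDiff Topology UpperHalfPlane ComplexConjugate ENNReal
open UpperHalfPlane MeasureTheory Filter Set

namespace Pool.Agent.RPQ

open Pool.Agent.RS
open Pool.Agent.MS (BA BB st pf gk Dk amk)

theorem PRW_det {Γ : Subgroup SL(2, ℝ)} (hΓ : QU.SurfaceGroup Γ) {Cm : ℝ} (hCm : 1 ≤ Cm)
    (hMFC : ∀ (F : Set ℍ) (f : ℍ → ℝ) (D e δ c : ℝ) (h h' : ℍ → ℝ) (φ : ℍ → ℂ), QU.NiceDom Γ F → QU.Inv Γ f → QU.Inv Γ h → QU.Inv Γ h' → InvC Γ φ → 1 ≤ D → 0 ≤ e → 0 ≤ δ → δ ≤ 1 →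
      (∀ z, |f z| ≤ δ) → (∀ z, 0 ≤ h' z ∧ h' z ≤ 1) → (∀ z, |(h z - c) / D - h' z| ≤ e) → |(∫ z in F, h' z * ‖φ z‖ ^ 2) - mean F h' * nn F φ| ≤ e * nn F φ →
      |(∫ z in F, h z * ‖φ z‖ ^ 2 * Real.exp (f z)) - (∫ z in F, h z * Real.exp (f z)) / (∫ z in F, Real.exp (f z)) * ∫ z in F, ‖φ z‖ ^ 2 * Real.exp (f z)| ≤
        Cm * D * (e + δ) * ∫ z in F, ‖φ z‖ ^ 2 * Real.exp (f z))
    {D : ℝ} (hD : 1 ≤ D) {e ε : ℝ} (he : 0 < e) (he1 : e ≤ 1) (heε : 100 * Cm * D * e ≤ ε) {S : Finset (ℍ → ℝ)}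
    (hS : ∀ h ∈ S, QU.Inv Γ h ∧ ∀ z, 0 ≤ h z ∧ h z ≤ 1)
    (hS' : ∀ h : ℍ → ℝ, QU.Inv Γ h → (∀ z w, |h z - h w| ≤ dist z w) → ∃ (c : ℝ), ∃ h' ∈ S, ∀ z, |(h z - c) / D - h' z| ≤ e)
    {F0 F : Set ℍ} (hF0 : QU.NiceDom Γ F0) (hF : QU.NiceDom Γ F) {t C1 μ : ℝ} {V : ℍ → ℝ} {φ : ℍ → ℂ}
    (ht : |t| * C1 ≤ e) (hC1 : 0 ≤ C1) (hV : ∀ z, |V z| ≤ C1) (hVi : QU.Inv Γ V)
    (hφ : CEig Γ (fun z => t * V z) μ φ)
    (hdet : ∀ h' ∈ S, |(∫ z in F0, h' z * ‖φ z‖ ^ 2) - mean F0 h' * nn F0 φ| ≤ 11 * e * nn F0 φ) :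
    Eqd Γ F (fun z => t * V z) ε φ := by
  intro h hh hlip
  obtain ⟨c, h', hh'S, hc⟩ := hS' h hh hlip
  obtain ⟨-, hfd, -, -, -, -⟩ := QU.A_DOB Γ F hΓ hF
  obtain ⟨-, -, -, -, hsame, -⟩ := QU.A_DOB Γ F0 hΓ hF0
  obtain ⟨hvol, hint⟩ := hsame F hfd
  have hφc : InvC Γ φ := ⟨INB_cont φ hφ.1, hφ.2.1⟩
  have hh' := hS h' hh'S
  have i1 : ∫ z in F, h' z * ‖φ z‖ ^ 2 = ∫ z in F0, h' z * ‖φ z‖ ^ 2 := by
    apply hint
    intro γ z
    rw [hh'.1.2 γ z, hφc.2 γ z]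
  have i2 : nn F φ = nn F0 φ := by
    unfold nn
    apply hint (fun z => ‖φ z‖ ^ 2)
    intro γ z
    rw [hφc.2 γ z]
  have i3 : mean F h' = mean F0 h' := by
    unfold mean
    rw [hvol, hint h' (fun γ z => hh'.1.2 γ z)]
  have h1 : |(∫ z in F, h' z * ‖φ z‖ ^ 2) - mean F h' * nn F φ| ≤ 11 * e * nn F φ := by
    rw [i1, i2, i3]
    exact hdet h' hh'S
  have hfi : QU.Inv Γ (fun z => t * V z) := ⟨continuous_const.mul hVi.1, fun γ z => by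
    show t * V (γ • z) = t * V z
    rw [hVi.2 γ z]⟩
  have hfb : ∀ z, |t * V z| ≤ |t| * C1 := by
    intro z
    rw [abs_mul]
    exact mul_le_mul_of_nonneg_left (hV z) (abs_nonneg t)
  have h2 := hMFC F (fun z => t * V z) D (11 * e) (|t| * C1) c h h' φ hF hfi hh hh'.1 hφc hD (by positivity)
    (mul_nonneg (abs_nonneg t) hC1) (ht.trans he1) hfb hh'.2 (fun z => (hc z).trans (by linarith)) h1
  refine h2.trans ?_
  have h3 : 0 ≤ ∫ z in F, ‖φ z‖ ^ 2 * Real.exp (t * V z) := integral_nonneg fun z => by positivity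
  refine mul_le_mul_of_nonneg_right ?_ h3
  have h4 : Cm * D * (11 * e + |t| * C1) ≤ Cm * D * (12 * e) := by
    refine mul_le_mul_of_nonneg_left (by linarith) (by positivity)
  have h5 : 0 ≤ Cm * D * e := by positivity
  nlinarith

/-- Markov's inequality after resampling -/
theorem PRW_markov (hSNC : SNC_stmt) {Ω : Type} [MeasurableSpace Ω] (P : Measure Ω) [IsProbabilityMeasure P] (J : ℕ)
    (Φ : Ω × (Fin J → ℝ) → Ω) (hΦ : MeasurePreserving Φ (P.prod (PJ J)) P) (G : Ω → ENNReal) (hG : Measurable G)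
    (δ0 x : ℝ) (hδ0 : 0 < δ0) (hx : ∀ ζ, ∫⁻ ξ, G (Φ (ζ, ξ)) ∂PJ J ≤ ENNReal.ofReal x) :
    P {ζ | ¬ G ζ ≤ ENNReal.ofReal (δ0 ^ 2)} ≤ ENNReal.ofReal (x / δ0 ^ 2) := by
  have := (hSNC J).1
  have h0 : ENNReal.ofReal (δ0 ^ 2) ≠ 0 := by
    rw [Ne, ENNReal.ofReal_eq_zero, not_le]
    positivity
  have e1 : ∫⁻ ζ, G ζ ∂P ≤ ENNReal.ofReal x := by
    rw [← hΦ.lintegral_comp hG, lintegral_prod (fun q => G (Φ q)) (hG.comp hΦ.measurable).aemeasurable]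
    calc ∫⁻ ζ, ∫⁻ ξ, G (Φ (ζ, ξ)) ∂PJ J ∂P ≤ ∫⁻ _ζ, ENNReal.ofReal x ∂P := lintegral_mono hx
      _ = ENNReal.ofReal x := by rw [lintegral_const, measure_univ, mul_one]
  have h1 := meas_ge_le_lintegral_div (μ := P) hG.aemeasurable h0 ENNReal.ofReal_ne_top
  have h2 : P {ζ | ¬ G ζ ≤ ENNReal.ofReal (δ0 ^ 2)} ≤ P {ζ | ENNReal.ofReal (δ0 ^ 2) ≤ G ζ} :=
    measure_mono fun ζ hζ => (not_le.1 hζ).le
  refine h2.trans (h1.trans ?_)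
  refine (ENNReal.div_le_div_right e1 _).trans ?_
  rw [ENNReal.ofReal_div_of_pos (by positivity)]

theorem PRW_proof (hDEL : DEL_stmt) (hWEW : WEW_stmt) (hLDV : LDV_stmt) (hLNT : LNT_stmt) (hMFC : MFC_stmt) (hMEW : MEW_stmt) (hUTM : UTM_stmt) (hSNC : SNC_stmt) : PRW_stmt := by
  classical
  intro Γ κ C0 C1 ε B hΓ hκ hC0 hC1 hε hB
  obtain ⟨D, hD1, hLNT'⟩ := hLNT Γ hΓ
  obtain ⟨Cm, hCm1, hMFC'⟩ := hMFC Γ hΓ
  obtain ⟨F0, hF0⟩ := QU.A_DOM Γ hΓ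
  obtain ⟨⟨α, hα⟩, ⟨β, hβ⟩⟩ := Pool.Agent.MS.STB_proof.2.2.2.2.2 (1 / 8) (by norm_num)
  have hCD : 0 < 100 * Cm * D := by positivity
  obtain ⟨e, he, he1, heε⟩ : ∃ e : ℝ, 0 < e ∧ e ≤ 1 ∧ 100 * Cm * D * e ≤ ε := by
    refine ⟨min 1 (ε / (100 * Cm * D)), lt_min one_pos (by positivity), min_le_left _ _, ?_⟩
    calc 100 * Cm * D * min 1 (ε / (100 * Cm * D)) ≤ 100 * Cm * D * (ε / (100 * Cm * D)) :=
        mul_le_mul_of_nonneg_left (min_le_right _ _) hCD.le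
      _ = ε := by field_simp
  obtain ⟨S, hS, hS'⟩ := hLNT' e he
  obtain ⟨θ, Cθ, hθ, hCθ, hldv⟩ := PRB_ldv hLDV hΓ hF0 e he S hS
  -- L and n
  obtain ⟨L, hL⟩ := exists_nat_ge (8 * (B + 5) / θ + 1)
  have hL1 : 1 ≤ L := by
    have : (1 : ℝ) ≤ L := le_trans (by have : 0 ≤ 8 * (B + 5) / θ := by positivity
                                       linarith) hL
    exact_mod_cast this
  have hBL : B + 5 ≤ (L + 1) * θ / 8 := by
    have h1 : 8 * (B + 5) / θ ≤ L + 1 := by linarith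
    rw [div_le_iff₀ hθ] at h1
    linarith
  obtain ⟨n, hn⟩ := exists_nat_ge (2 * (2 * L + 1) / e + 1)
  have hn1 : 1 ≤ n := by
    have : (1 : ℝ) ≤ n := le_trans (by have : 0 ≤ 2 * (2 * (L : ℝ) + 1) / e := by positivity
                                       linarith) hn
    exact_mod_cast this
  have hn0 : (0 : ℝ) < n := by exact_mod_cast hn1
  have hne : 2 * ((2 * L + 1) / n) + 10 * e ≤ 11 * e := by
    have h1 : 2 * (2 * (L : ℝ) + 1) / e ≤ n := by linarith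
    rw [div_le_iff₀ he] at h1
    have h2 : 2 * ((2 * (L : ℝ) + 1) / n) ≤ e := by
      rw [← mul_div_assoc, div_le_iff₀ hn0]
      linarith
    linarith
  obtain ⟨η, ε', C2, hη, hη', hε', hε'', hC2, hW⟩ := hWEW Γ F0 α β κ C0 B θ Cθ L (9 * n * L) hΓ hF0 hα hβ hκ hB hθ hCθ
    hL1 hBL
  obtain ⟨C3, R3, hC3, hR3, hU⟩ := hUTM α β hα hβ η ε' hη hη' hε' hε''
  obtain ⟨C4, δ0, hC4, hδ0, hDt⟩ := hDEL Γ F0 α β η ε' hΓ hF0 hα hβ hη hη' hε' hε'' L n e hL1 hn1 he he1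
  obtain ⟨C, hCC2, hCC3, hCC4⟩ : ∃ C : ℝ, C2 ≤ C ∧ C3 ≤ C ∧ C4 ≤ C :=
    ⟨max C2 (max C3 C4), le_max_left _ _, (le_max_left _ _).trans (le_max_right _ _),
      (le_max_right _ _).trans (le_max_right _ _)⟩
  obtain ⟨a, R1, ha, hR1, hW'⟩ := hW C hCC2
  have hdetS : ∃ R4 : ℝ, ∀ h ∈ S, ∀ R, R4 ≤ R → ∀ (ϵ t μ : ℝ) (V : ℍ → ℝ) (φ : ℍ → ℂ),
      QuasiL Γ C1 η R ϵ t μ V φ →
      (∀ l ∈ AdL L n, WS Γ F0 (wdK V (R * ϵ / 2) (tau R) (ut β α C η ε' R) (FB F0 h e (tau R)) l) δ0) →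
        |(∫ z in F0, h z * ‖φ z‖ ^ 2) - mean F0 h * nn F0 φ| ≤ (2 * ((2 * L + 1) / n) + 10 * e) * nn F0 φ := by
    refine PRB_exR S ?_
    intro h hh
    obtain ⟨R0, -, hR0⟩ := hDt C C1 hCC4 hC1 h (hS h hh).1 (hS h hh).2
    exact ⟨R0, fun R hR ϵ t μ V φ => hR0 R ϵ t μ V φ hR⟩
  obtain ⟨R4, hR4⟩ := hdetS
  -- the perturbation is small
  obtain ⟨R5, hR5⟩ : ∃ R5 : ℝ, ∀ R, R5 ≤ R → 2 * R ^ (-1 + η / 32) * C1 ≤ e := by
    have h1 : Tendsto (fun R : ℝ => 2 * R ^ (-1 + η / 32) * C1) atTop (𝓝 (2 * 0 * C1)) := by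
      refine Tendsto.mul_const _ (Tendsto.const_mul _ ?_)
      have h2 := tendsto_rpow_neg_atTop (y := 1 - η / 32) (by linarith)
      refine h2.congr fun R => ?_
      congr 1
      ring
    rw [mul_zero, zero_mul] at h1
    have h2 := h1.eventually (eventually_le_nhds he)
    obtain ⟨R5, hR5⟩ := eventually_atTop.1 h2
    exact ⟨R5, hR5⟩
  obtain ⟨Ad, hAd⟩ : ∃ Ad : Finset (List ℕ), ∀ l, l ∈ Ad ↔ l ∈ AdL L n :=
    ⟨(PRB_fin L n).toFinset, fun l => (PRB_fin L n).mem_toFinset⟩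
  obtain ⟨R0, hRa, hRb, hRc, hRd, hRe, hRf⟩ : ∃ R0 : ℝ, R1 ≤ R0 ∧ R3 ≤ R0 ∧ R4 ≤ R0 ∧ R5 ≤ R0 ∧ Real.exp 4 ≤ R0 ∧
      (S.card : ℝ) * Ad.card / δ0 ^ 2 ≤ R0 := by
    refine ⟨max R1 (max R3 (max R4 (max R5 (max (Real.exp 4) ((S.card : ℝ) * Ad.card / δ0 ^ 2))))), ?_, ?_, ?_, ?_, ?_, ?_⟩
    · exact le_max_left _ _
    · exact (le_max_left _ _).trans (le_max_right _ _)
    · exact ((le_max_left _ _).trans (le_max_right _ _)).trans (le_max_right _ _)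
    · exact (((le_max_left _ _).trans (le_max_right _ _)).trans (le_max_right _ _)).trans (le_max_right _ _)
    · exact ((((le_max_left _ _).trans (le_max_right _ _)).trans (le_max_right _ _)).trans (le_max_right _ _)).trans
        (le_max_right _ _)
    · exact ((((le_max_right _ _).trans (le_max_right _ _)).trans (le_max_right _ _)).trans (le_max_right _ _)).trans
        (le_max_right _ _)
  refine ⟨a, η / 32, R0, ha, by positivity, by linarith, hR1.trans hRa, ?_⟩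
  intro R ρ ϵ s J p χ Ω _ P _ V W Φ hR hρ1 hρ2 hϵs hϵ0 hϵ1 hN hVm hVi hWi hVb hVl hΦ hΦV
  have hRpos : 0 < R := lt_of_lt_of_le (by linarith [hR1.trans hRa]) hR
  have hR1' : 1 ≤ R := by linarith [hR1.trans hRa]
  have hlog : 4 ≤ Real.log R := by
    rw [Real.le_log_iff_exp_le hRpos]
    exact hRe.trans hR
  have hl0 : 0 < Real.log R := by linarith
  have hρ : 0 < ρ := lt_of_lt_of_le (by have := Real.rpow_pos_of_pos hl0 (-(2 * a + 2)); positivity) hρ1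
  have hK : 8 / ρ ≤ R * ϵ / 2 * s := by
    have h1 := mul_le_mul_of_nonneg_left hϵs (by positivity : (0 : ℝ) ≤ R / 2)
    have h2 : R / 2 * (16 / (ρ * R)) = 8 / ρ := by
      field_simp
      norm_num
    rw [h2] at h1
    linarith
  have hT : 0 < tau R := by
    unfold tau
    positivity
  have hexp : ∀ C : ℝ, C * Real.exp (-(θ * tau R)) = C * R ^ (-(θ / 8)) := by
    intro C
    rw [Real.rpow_def_of_pos hRpos]
    congr 2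
    unfold tau
    ring
  -- the function of zeta
  set G : (ℍ → ℝ) → List ℕ → Ω → ENNReal := fun h l ζ =>
    ∫⁻ g in dG F0, ∫⁻ h' in dG F0, ‖perK Γ (wdK (V ζ) (R * ϵ / 2) (tau R) (ut β α C η ε' R) (FB F0 h e (tau R)) l) g h'‖ₑ ^ 2 ∂mG ∂mG with hG
  obtain ⟨hum, hmm, hul⟩ := hU C R hCC3 (hRb.trans hR)
  have huB : ∃ Bd : ℝ, ∀ b, ‖ut β α C η ε' R b‖ ≤ Bd := by
    refine ⟨C * R ^ (15 / 16 + η), fun b => ?_⟩
    have h1 : 0 ≤ C * R ^ (15 / 16 + η) := by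
      have : 0 ≤ C := by linarith
      positivity
    have h2 := hul b
    by_cases hb : b ∈ Bx C η ε' R
    · unfold mj at h2
      rw [Set.indicator_of_mem hb, ← ofReal_norm, ENNReal.ofReal_le_ofReal_iff h1] at h2
      exact h2
    · unfold ut
      rw [Set.indicator_of_notMem hb, norm_zero]
      exact h1
  have huD : ∃ Dd : ℝ, ∀ b, ut β α C η ε' R b ≠ 0 → ∀ i j, |b.1 i j| ≤ Dd := by
    refine ⟨3, fun b hb => ?_⟩
    by_cases hb' : b ∈ Bx C η ε' R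
    · exact hb'.1
    · exact absurd (by unfold ut; exact Set.indicator_of_notMem hb' _) hb
  have hmeasure : ∀ h ∈ S, ∀ l ∈ Ad, P {ζ : Ω | ¬ G h l ζ ≤ ENNReal.ofReal (δ0 ^ 2)} ≤
      ENNReal.ofReal (R ^ (-(B + 3)) / δ0 ^ 2) := by
    intro h hh l hl
    obtain ⟨a1, a2, a3⟩ := hldv h hh (tau R) hT
    obtain ⟨b1, b2, b3⟩ := PRB_AdL ((hAd l).1 hl)
    refine PRW_markov hSNC P J Φ hΦ (G h l) ?_ δ0 _ hδ0 ?_
    · exact hMEW Γ F0 (R * ϵ / 2) (tau R) (ut β α C η ε' R) (FB F0 h e (tau R)) l Ω V hΓ hF0 hVm hVi hum huB huD a1 a2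
    · intro ζ
      rw [hexp] at a3
      have h1 := hW' R ρ s (R * ϵ / 2) J p χ (W ζ) (FB F0 h e (tau R)) l (hRa.trans hR) hρ1 hρ2 hK hN (hWi ζ) a1 a2 a3
        b1 b2 b3
      refine le_trans (le_of_eq ?_) h1
      refine lintegral_congr_ae ?_
      filter_upwards [(hSNC J).2.1] with ξ hξ
      have h2 : V (Φ (ζ, ξ)) = fun z => W ζ z + s * VV χ ξ z := funext fun z => hΦV ζ ξ hξ z
      simp only [hG]
      rw [h2]
  -- the bad set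
  have hsub : {ζ : Ω | ¬ ∀ (F : Set ℍ) (t μ : ℝ) (φ : ℍ → ℂ), QU.NiceDom Γ F → |t - ϵ| ≤ R ^ (-(11 / 10) : ℝ) → 0 < μ →
      |Real.sqrt μ - R| ≤ R ^ (-(1 / 100) : ℝ) → CEig Γ (fun z => t * V ζ z) μ φ →
        Eqd Γ F (fun z => t * V ζ z) ε φ} ⊆
      ⋃ h ∈ S, ⋃ l ∈ Ad, {ζ : Ω | ¬ G h l ζ ≤ ENNReal.ofReal (δ0 ^ 2)} := by
    intro ζ hbad
    by_contra hcon
    apply hbad
    have hws : ∀ h ∈ S, ∀ l ∈ AdL L n, G h l ζ ≤ ENNReal.ofReal (δ0 ^ 2) := by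
      intro h hh l hl
      by_contra h1
      exact hcon (Set.mem_biUnion hh (Set.mem_biUnion ((hAd l).2 hl) h1))
    intro F t μ φ hF ht hμ hμ1 hφ
    have hq : QuasiL Γ C1 η R ϵ t μ (V ζ) φ := ⟨hVi ζ, hVb ζ, hVl ζ, hϵ0, hϵ1, ht, hμ, hμ1, hφ⟩
    have htb : |t| * C1 ≤ e := by
      refine le_trans ?_ (hR5 R (hRd.trans hR))
      refine mul_le_mul_of_nonneg_right ?_ hC1
      have h1 : R ^ (-(11 / 10) : ℝ) ≤ R ^ (-1 + η / 32) := Real.rpow_le_rpow_of_exponent_le hR1' (by linarith)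
      have h2 : |t| ≤ |t - ϵ| + |ϵ| := by
        have := abs_add_le (t - ϵ) ϵ
        rwa [sub_add_cancel] at this
      rw [abs_of_nonneg hϵ0] at h2
      linarith
    refine PRW_det hΓ hCm1 hMFC' hD1 he he1 heε hS hS' hF0 hF htb hC1 (hVb ζ) (hVi ζ) hφ ?_
    intro h' hh'
    refine (hR4 h' hh' R (hRc.trans hR) ϵ t μ (V ζ) φ hq (fun l hl => hws h' hh' l hl)).trans ?_
    refine mul_le_mul_of_nonneg_right hne ?_
    unfold nn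
    exact integral_nonneg fun z => by positivity
  refine (measure_mono hsub).trans ?_
  have hsum : P (⋃ h ∈ S, ⋃ l ∈ Ad, {ζ : Ω | ¬ G h l ζ ≤ ENNReal.ofReal (δ0 ^ 2)}) ≤
      ∑ h ∈ S, ∑ l ∈ Ad, ENNReal.ofReal (R ^ (-(B + 3)) / δ0 ^ 2) := by
    refine (measure_biUnion_finset_le _ _).trans (Finset.sum_le_sum fun h hh => ?_)
    exact (measure_biUnion_finset_le _ _).trans (Finset.sum_le_sum fun l hl => hmeasure h hh l hl)
  refine hsum.trans ?_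
  rw [Finset.sum_const, Finset.sum_const, nsmul_eq_mul, nsmul_eq_mul, ← mul_assoc]
  rw [← ENNReal.ofReal_natCast, ← ENNReal.ofReal_natCast, ← ENNReal.ofReal_mul (by positivity),
    ← ENNReal.ofReal_mul (by positivity)]
  apply ENNReal.ofReal_le_ofReal
  have h1 : R ^ (-(B + 2)) = R ^ (-(B + 3)) * R := by
    rw [← Real.rpow_add_one hRpos.ne']
    congr 1
    ring
  rw [h1]
  have h2 : 0 < R ^ (-(B + 3)) := Real.rpow_pos_of_pos hRpos _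
  calc (S.card : ℝ) * Ad.card * (R ^ (-(B + 3)) / δ0 ^ 2) = R ^ (-(B + 3)) * ((S.card : ℝ) * Ad.card / δ0 ^ 2) := by ring
    _ ≤ R ^ (-(B + 3)) * R := mul_le_mul_of_nonneg_left (hRf.trans hR) h2.le

end Pool.Agent.RPQ
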